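import Pool.Agent.Helper80.LR.Spec

/-!
# LR-1: a vertex of small degree
-/

set_option autoImplicit false
open Classical Filter Topology

namespace Pool.Agent.Helper85.LR

open Pool.Agent.Helper80.LR

theorem danger : DangerStmt := by
  intro h hh
  -- the parameters
  set x : ℝ := min 1 (h / 6) with hx
  have hx0 : 0 < x := lt_min one_pos (by positivity)
  have hx1 : x ≤ 1 := min_le_left _ _
  have hx6 : 3 * x ≤ h / 2 := by
    have : x ≤ h / 6 := min_le_right _ _
    linarith
  set θ : ℝ := -Real.log x with hθ
  have hθ0 : 0 ≤ θ := by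
    have := Real.log_nonpos hx0.le hx1
    rw [hθ]; linarith
  refine ⟨min 1 (h / (2 * (θ + 1))), lt_min one_pos (by positivity), min_le_left _ _, ?_⟩
  set κ : ℝ := min 1 (h / (2 * (θ + 1))) with hκ
  have hκ0 : 0 < κ := lt_min one_pos (by positivity)
  have hθκ : θ * κ ≤ h / 2 := by
    have h1 : κ ≤ h / (2 * (θ + 1)) := min_le_right _ _
    have h2 : θ * κ ≤ (θ + 1) * (h / (2 * (θ + 1))) := by
      apply mul_le_mul (by linarith) h1 hκ0.le (by linarith)
    have h3 : (θ + 1) * (h / (2 * (θ + 1))) = h / 2 := by
      field_simp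
    linarith
  intro n k p hn hk hp0 hp1 hpn U hU
  have hn0 : (0 : ℝ) < n := by
    have : 0 < n := by omega
    exact_mod_cast this
  have hlog : 0 ≤ Real.log n := Real.log_natCast_nonneg n
  have hkn : (k : ℝ) ≤ n := by exact_mod_cast hk
  -- one vertex
  have one : ∀ v : Fin n ⊕ Fin n,
      pr1 n p (fun G => (((G \ U) ∩ star v).card : ℝ) ≤ κ * Real.log n) ≤
        Real.exp (-(p * (n - k))) * (n : ℝ) ^ h := by
    intro v
    have e1 : ∀ G : Finset (Cell n), (G \ U) ∩ star v = G ∩ (star v \ U) := by
      intro G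
      ext e
      simp only [Finset.mem_inter, Finset.mem_sdiff]
      tauto
    have hcard : (n : ℝ) - k ≤ ((star v \ U).card : ℝ) := by
      have h1 : (star v \ U).card + (U ∩ star v).card = n := by
        rw [Finset.inter_comm]
        exact (Finset.card_sdiff_add_card_inter _ _).trans (card_star v)
      have h2 := hU v
      have h3 : ((star v \ U).card : ℝ) + ((U ∩ star v).card : ℝ) = n := by exact_mod_cast h1
      have h4 : ((U ∩ star v).card : ℝ) ≤ k := by exact_mod_cast h2
      linarith
    have e2 : pr1 n p (fun G => (((G \ U) ∩ star v).card : ℝ) ≤ κ * Real.log n) =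
        pr1 n p (fun G => ((G ∩ (star v \ U)).card : ℝ) ≤ κ * Real.log n) := by
      simp only [e1]
    rw [e2]
    refine (pr1_card_le hp0 hp1 hx0 hx1 (star v \ U) (κ * Real.log n)).trans ?_
    have h5 : x ^ (-(κ * Real.log n)) = Real.exp (θ * κ * Real.log n) := by
      rw [Real.rpow_def_of_pos hx0]
      congr 1
      rw [hθ]; ring
    have h6 : (1 - p + p * x) ^ (star v \ U).card ≤
        Real.exp (-(p * (1 - x) * (star v \ U).card)) := by
      have h7 : 1 - p + p * x ≤ Real.exp (-(p * (1 - x))) := by
        have := Real.add_one_le_exp (-(p * (1 - x)))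
        linarith
      have h8 : 0 ≤ 1 - p + p * x := by
        have := mul_nonneg hp0 hx0.le
        linarith
      calc (1 - p + p * x) ^ (star v \ U).card ≤
            Real.exp (-(p * (1 - x))) ^ (star v \ U).card := pow_le_pow_left₀ h8 h7 _
        _ = Real.exp (-(p * (1 - x) * (star v \ U).card)) := by
            rw [← Real.exp_nat_mul]
            congr 1
            ring
    have h9 : p * (n - k) - 3 * x * Real.log n ≤ p * (1 - x) * (star v \ U).card := by
      have h10 : p * (1 - x) * (n - k) ≤ p * (1 - x) * (star v \ U).card :=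
        mul_le_mul_of_nonneg_left hcard (mul_nonneg hp0 (by linarith))
      have h11 : p * (n - k) ≤ 3 * Real.log n := by
        have : p * (n - k) ≤ p * n :=
          mul_le_mul_of_nonneg_left (by linarith [(Nat.cast_nonneg k : (0 : ℝ) ≤ k)]) hp0
        linarith
      have h12 : x * (p * (n - k)) ≤ x * (3 * Real.log n) :=
        mul_le_mul_of_nonneg_left h11 hx0.le
      linarith
    rw [h5]
    calc Real.exp (θ * κ * Real.log n) * (1 - p + p * x) ^ (star v \ U).card
        ≤ Real.exp (θ * κ * Real.log n) * Real.exp (-(p * (1 - x) * (star v \ U).card)) :=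
          mul_le_mul_of_nonneg_left h6 (Real.exp_pos _).le
      _ = Real.exp (θ * κ * Real.log n - p * (1 - x) * (star v \ U).card) := by
          rw [← Real.exp_add]; congr 1
      _ ≤ Real.exp (-(p * (n - k)) + h * Real.log n) := by
          apply Real.exp_le_exp.2
          have h13 : θ * κ * Real.log n ≤ h / 2 * Real.log n :=
            mul_le_mul_of_nonneg_right hθκ hlog
          have h14 : 3 * x * Real.log n ≤ h / 2 * Real.log n :=
            mul_le_mul_of_nonneg_right hx6 hlog
          linarith
      _ = Real.exp (-(p * (n - k))) * (n : ℝ) ^ h := by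
          rw [Real.exp_add, Real.rpow_def_of_pos hn0]
          congr 2
          ring
  -- union bound
  calc pr1 n p (fun G => Danger (κ * Real.log n) G U)
      ≤ pr1 n p (fun G => ∃ v ∈ (Finset.univ : Finset (Fin n ⊕ Fin n)),
          (((G \ U) ∩ star v).card : ℝ) ≤ κ * Real.log n) :=
        pr1_mono hp0 hp1 (fun G hG => by
          obtain ⟨v, hv⟩ := hG
          exact ⟨v, Finset.mem_univ v, hv⟩)
    _ ≤ ∑ v ∈ (Finset.univ : Finset (Fin n ⊕ Fin n)),
          pr1 n p (fun G => (((G \ U) ∩ star v).card : ℝ) ≤ κ * Real.log n) :=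
        pr1_exists_le hp0 hp1 _ _
    _ ≤ ∑ v ∈ (Finset.univ : Finset (Fin n ⊕ Fin n)),
          Real.exp (-(p * (n - k))) * (n : ℝ) ^ h := Finset.sum_le_sum fun v _ => one v
    _ = 2 * n * Real.exp (-(p * (n - k))) * (n : ℝ) ^ h := by
        rw [Finset.sum_const, Finset.card_univ, nsmul_eq_mul]
        simp only [Fintype.card_sum, Fintype.card_fin]
        push_cast
        ring

end Pool.Agent.Helper85.LR
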